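import Mathlib
import Pool.Agent.Lib.MP_caab05_ag.GB.Osg

/-! Holomorphic functions extend across closed sets of zero `(2n-2)`-dimensional measure. -/

namespace Pool.Agent.Lib.MP_813db1_ag.PB

open Set Metric Filter MeasureTheory Topology

theorem null_image {E F : Type} [NormedAddCommGroup E] [NormedSpace ℝ E] [FiniteDimensional ℝ E]
    [MeasurableSpace E] [BorelSpace E] [NormedAddCommGroup F] [NormedSpace ℝ F]
    [MeasurableSpace F] [BorelSpace F] {d : ℝ} (hd : 0 ≤ d) {g : E → F} {S : Set E}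
    (hg : ∀ x ∈ S, ContDiffAt ℝ 1 g x) (hS : μH[d] S = 0) : μH[d] (g '' S) = 0 := by
  have h1 : ∀ x, x ∈ S → ∃ K, ∃ t ∈ 𝓝 x, LipschitzOnWith K g t :=
    fun x hx => (hg x hx).exists_lipschitzOnWith
  choose! K t ht hK using h1
  obtain ⟨T, hTS, hTc, hcov⟩ := TopologicalSpace.countable_cover_nhdsWithin (f := t) (s := S)
    (fun x hx => mem_nhdsWithin_of_mem_nhds (ht x hx))
  have hsub : g '' S ⊆ ⋃ x ∈ T, g '' (S ∩ t x) := by
    rintro _ ⟨y, hy, rfl⟩
    obtain ⟨x, hx, hyx⟩ := mem_iUnion₂.1 (hcov hy)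
    exact mem_iUnion₂.2 ⟨x, hx, y, ⟨hy, hyx⟩, rfl⟩
  refine measure_mono_null hsub ((measure_biUnion_null_iff hTc).2 fun x hx => ?_)
  have h2 := ((hK x (hTS hx)).mono (inter_subset_right (s := S))).hausdorffMeasure_image_le hd
  have h3 : μH[d] (S ∩ t x) = 0 := measure_mono_null inter_subset_left hS
  rw [h3, mul_zero] at h2
  exact le_antisymm h2 zero_le

variable {ι : Type} [Fintype ι] [DecidableEq ι]

theorem dense_of_null (i0 : ι) {T : Set ({j // j ≠ i0} → ℂ)}
    (hT : μH[2 * (Fintype.card ι : ℝ) - 2] T = 0) : Dense Tᶜ := by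
  have hpos : 0 < Fintype.card ι := Fintype.card_pos_iff.2 ⟨i0⟩
  have hr : (Module.finrank ℝ ({j // j ≠ i0} → ℂ) : ℝ) = 2 * (Fintype.card ι : ℝ) - 2 := by
    rw [Module.finrank_pi_fintype]
    simp only [Complex.finrank_real_complex, Finset.sum_const, Finset.card_univ, smul_eq_mul,
      Fintype.card_subtype_compl, Fintype.card_subtype_eq]
    push_cast [Nat.cast_sub hpos]
    ring
  rw [← hr] at hT
  exact Measure.dense_of_ae (μ := μH[(Module.finrank ℝ ({j // j ≠ i0} → ℂ) : ℝ)])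
    (p := fun x => x ∈ Tᶜ) (compl_mem_ae_iff.2 hT)

omit [DecidableEq ι] in
theorem dim_nonneg (i0 : ι) : (0 : ℝ) ≤ 2 * (Fintype.card ι : ℝ) - 2 := by
  have hpos : 1 ≤ Fintype.card ι := Fintype.card_pos_iff.2 ⟨i0⟩
  have : (1 : ℝ) ≤ Fintype.card ι := by exact_mod_cast hpos
  linarith

/-- the points whose line in direction `v` misses `S` are dense. -/
theorem dense_lines (i0 : ι) {S : Set (ι → ℂ)} (hS : μH[2 * (Fintype.card ι : ℝ) - 2] S = 0)
    (v : ι → ℂ) (hv : v i0 = 1) : Dense {z : ι → ℂ | ∀ t : ℂ, z + t • v ∉ S} := by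
  let q : (ι → ℂ) →ₗ[ℂ] ({j // j ≠ i0} → ℂ) :=
    { toFun := fun z j => z j - z i0 * v j
      map_add' := fun a b => by funext j; simp only [Pi.add_apply]; ring
      map_smul' := fun c a => by funext j; simp only [Pi.smul_apply, smul_eq_mul, RingHom.id_apply]; ring }
  let Q := LinearMap.toContinuousLinearMap q
  have hsurj : Function.Surjective Q := by
    intro u
    refine ⟨fun j => if h : j = i0 then 0 else u ⟨j, h⟩, ?_⟩
    funext j
    simp [Q, q, j.2]
  have hnull : μH[2 * (Fintype.card ι : ℝ) - 2] (Q '' S) = 0 :=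
    null_image (dim_nonneg i0)
      (fun x _ => (Q.restrictScalars ℝ).contDiff.contDiffAt) hS
  have hd := (dense_of_null i0 hnull).preimage (Q.isOpenMap hsurj)
  refine hd.mono ?_
  intro z hz t ht
  apply hz
  refine ⟨z + t • v, ht, ?_⟩
  funext j
  simp only [Q, q, LinearMap.coe_toContinuousLinearMap', LinearMap.coe_mk, AddHom.coe_mk,
    Pi.add_apply, Pi.smul_apply, smul_eq_mul, hv]
  ring

theorem dense_compl (i0 : ι) {S : Set (ι → ℂ)} (hS : μH[2 * (Fintype.card ι : ℝ) - 2] S = 0) :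
    Dense Sᶜ :=
  (dense_lines i0 hS (Pi.single i0 1) (by simp)).mono fun z hz => by simpa using hz 0

theorem exists_dir (i0 : ι) {S : Set (ι → ℂ)} (hS : μH[2 * (Fintype.card ι : ℝ) - 2] S = 0)
    (a : ι → ℂ) : ∃ v : ι → ℂ, v i0 = 1 ∧ ∀ t : ℂ, t ≠ 0 → a + t • v ∉ S := by
  let ρ : (ι → ℂ) → ({j // j ≠ i0} → ℂ) := fun z j => (z j - a j) / (z i0 - a i0)
  have hnull : μH[2 * (Fintype.card ι : ℝ) - 2] (ρ '' (S ∩ {z | z i0 - a i0 ≠ 0})) = 0 := by
    refine null_image (dim_nonneg i0) (fun x hx => ?_) (measure_mono_null inter_subset_left hS)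
    have h1 : ContDiffAt ℂ 1 ρ x := by
      refine contDiffAt_pi.2 fun j => ContDiffAt.div ?_ ?_ hx.2
      · exact (contDiffAt_apply ℂ ℂ j.1 x).sub contDiffAt_const
      · exact (contDiffAt_apply ℂ ℂ i0 x).sub contDiffAt_const
    exact h1.restrict_scalars ℝ
  obtain ⟨u, hu⟩ := (dense_of_null i0 hnull).nonempty
  refine ⟨fun j => if h : j = i0 then 1 else u ⟨j, h⟩, by simp, fun t ht hmem => hu ?_⟩
  refine ⟨_, ⟨hmem, by simpa using ht⟩, ?_⟩
  funext j
  simp only [ρ, Pi.add_apply, Pi.smul_apply, smul_eq_mul, j.2, dite_true, dite_false,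
    add_sub_cancel_left, mul_one]
  field_simp

theorem loc_ext (i0 : ι) {Ω S : Set (ι → ℂ)} (hΩ : IsOpen Ω) (hO : IsOpen (Ω \ S))
    (hS : μH[2 * (Fintype.card ι : ℝ) - 2] S = 0) {h : (ι → ℂ) → ℂ}
    (hh : DifferentiableOn ℂ h (Ω \ S)) {a : ι → ℂ} (ha : a ∈ Ω) :
    ∃ U : Set (ι → ℂ), IsOpen U ∧ a ∈ U ∧ ∃ H : (ι → ℂ) → ℂ, DifferentiableOn ℂ H U ∧
      ∀ z ∈ U \ S, H z = h z := by
  obtain ⟨v, hv1, hv⟩ := exists_dir i0 hS a
  obtain ⟨ε, hε, hball⟩ := Metric.isOpen_iff.1 hΩ a ha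
  set r : ℝ := ε / (2 * (‖v‖ + 1)) with hr
  have hr0 : 0 < r := by positivity
  have hin : ∀ z ∈ ball a (ε / 2), ∀ t : ℂ, ‖t‖ ≤ r → z + t • v ∈ Ω := by
    intro z hz t ht
    apply hball
    rw [mem_ball, dist_eq_norm] at hz ⊢
    have h1 : ‖t • v‖ ≤ ε / 2 := by
      rw [norm_smul]
      calc ‖t‖ * ‖v‖ ≤ r * (‖v‖ + 1) := by
            apply mul_le_mul ht (by linarith) (norm_nonneg _) hr0.le
        _ = ε / 2 := by rw [hr]; field_simp
    calc ‖z + t • v - a‖ = ‖(z - a) + t • v‖ := by congr 1; abel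
      _ ≤ ‖z - a‖ + ‖t • v‖ := norm_add_le _ _
      _ < ε := by linarith
  let C : Set (ι → ℂ) := (fun t : ℂ => a + t • v) '' sphere 0 r
  have hCc : IsCompact C := (isCompact_sphere 0 r).image (by fun_prop)
  have hCs : C ⊆ Ω \ S := by
    rintro _ ⟨t, ht, rfl⟩
    have ht' : ‖t‖ = r := by simpa using ht
    refine ⟨hin a (mem_ball_self (by positivity)) t ht'.le, hv t ?_⟩
    rintro rfl
    simp at ht'
    exact hr0.ne ht'
  obtain ⟨δ, hδ, hth⟩ := hCc.exists_cthickening_subset_open hO hCs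
  have han := MP_caab05_ag.GB.osg _ _ h _ hO hh
  have hfc : ContinuousOn (fderiv ℂ h) (Ω \ S) := han.fderiv.continuousOn
  obtain ⟨M, hM⟩ := (hCc.cthickening (r := δ)).exists_bound_of_continuousOn (hfc.mono hth)
  let U : Set (ι → ℂ) := ball a (min δ (ε / 2))
  have hmem : ∀ z ∈ U, ∀ θ : ℝ, z + circleMap 0 r θ • v ∈ cthickening δ C := by
    intro z hz θ
    refine mem_cthickening_of_dist_le _ (a + circleMap 0 r θ • v) δ C
      ⟨_, circleMap_mem_sphere 0 hr0.le θ, rfl⟩ ?_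
    rw [dist_add_right]
    exact (mem_ball.1 hz).le.trans (min_le_left _ _)
  have hcont : ∀ z : ι → ℂ, Continuous fun θ : ℝ => z + circleMap 0 r θ • v := fun z =>
    continuous_const.add ((continuous_circleMap 0 r).smul continuous_const)
  let H : (ι → ℂ) → ℂ := fun z => Real.circleAverage (fun t : ℂ => h (z + t • v)) 0 r
  have hH : DifferentiableOn ℂ H U := by
    intro z hz
    have hUn : U ∈ 𝓝 z := isOpen_ball.mem_nhds hz
    have key := intervalIntegral.hasFDerivAt_integral_of_dominated_of_fderiv_le (𝕜 := ℂ)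
      (μ := volume) (a := 0) (b := 2 * Real.pi)
      (F := fun x θ => h (x + circleMap 0 r θ • v))
      (F' := fun x θ => fderiv ℂ h (x + circleMap 0 r θ • v)) (bound := fun _ => M) hUn
      (by
        filter_upwards [hUn] with x hx
        exact (hh.continuousOn.comp_continuous (hcont x)
          (fun θ => hth (hmem x hx θ))).aestronglyMeasurable)
      ((hh.continuousOn.comp_continuous (hcont z)
          (fun θ => hth (hmem z hz θ))).intervalIntegrable _ _)
      ((hfc.comp_continuous (hcont z) (fun θ => hth (hmem z hz θ))).aestronglyMeasurable)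
      (Eventually.of_forall fun θ _ x hx => hM _ (hmem x hx θ))
      (intervalIntegrable_const)
      (Eventually.of_forall fun θ _ x hx => by
        have h1 := ((han _ (hth (hmem x hx θ))).differentiableAt.hasFDerivAt).comp x
          ((hasFDerivAt_id x).add_const (circleMap 0 r θ • v))
        simpa [Function.comp_def] using h1)
    exact (key.differentiableAt.const_smul ((2 * Real.pi)⁻¹ : ℝ)).differentiableWithinAt
  refine ⟨U, isOpen_ball, mem_ball_self (lt_min hδ (by positivity)), H, hH, ?_⟩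
  have hU2 : ∀ z ∈ U, z ∈ ball a (ε / 2) := fun z hz => ball_subset_ball (min_le_right _ _) hz
  have heq : ∀ z ∈ U, (∀ t : ℂ, z + t • v ∉ S) → H z = h z := by
    intro z hz hl
    have h1 : DifferentiableOn ℂ (fun t : ℂ => h (z + t • v)) (closedBall 0 r) := by
      refine hh.comp (f := fun t : ℂ => z + t • v) (by fun_prop) fun t ht => ?_
      exact ⟨hin z (hU2 z hz) t (by simpa using ht), hl t⟩
    have h2 : DiffContOnCl ℂ (fun t : ℂ => h (z + t • v)) (ball 0 |r|) := by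
      rw [abs_of_pos hr0]
      apply DifferentiableOn.diffContOnCl
      rwa [closure_ball _ hr0.ne']
    have h3 := h2.circleAverage
    simpa using h3
  intro z hz
  have hzΩ : z ∈ Ω \ S := ⟨by simpa using hin z (hU2 z hz.1) 0 (by simpa using hr0.le), hz.2⟩
  have c1 : ContinuousAt H z := hH.continuousOn.continuousAt (isOpen_ball.mem_nhds hz.1)
  have c2 : ContinuousAt h z := hh.continuousOn.continuousAt (hO.mem_nhds hzΩ)
  refine tendsto_nhds_unique_of_frequently_eq c1 c2 ?_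
  have h4 := mem_closure_iff_frequently.1 (dense_lines i0 hS v hv1 z)
  exact (h4.and_eventually (isOpen_ball.mem_nhds hz.1)).mono fun w hw => heq w hw.2 hw.1

/-- extension across a relatively closed set of zero `(2n-2)`-dimensional measure. -/
theorem ext (i0 : ι) {Ω S : Set (ι → ℂ)} (hΩ : IsOpen Ω) (hO : IsOpen (Ω \ S))
    (hS : μH[2 * (Fintype.card ι : ℝ) - 2] S = 0) {h : (ι → ℂ) → ℂ}
    (hh : DifferentiableOn ℂ h (Ω \ S)) :
    ∃ H : (ι → ℂ) → ℂ, DifferentiableOn ℂ H Ω ∧ ∀ z ∈ Ω \ S, H z = h z := by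
  have hne : ∀ z : ι → ℂ, (𝓝[Sᶜ] z).NeBot := fun z =>
    mem_closure_iff_nhdsWithin_neBot.1 (dense_compl i0 hS z)
  have key : ∀ a ∈ Ω, ∃ U : Set (ι → ℂ), IsOpen U ∧ a ∈ U ∧ ∃ H : (ι → ℂ) → ℂ,
      DifferentiableOn ℂ H U ∧ (∀ z ∈ U \ S, H z = h z) ∧
        ∀ z ∈ U, limUnder (𝓝[Sᶜ] z) h = H z := by
    intro a ha
    obtain ⟨U, hU, haU, H, hH, hE⟩ := loc_ext i0 hΩ hO hS hh ha
    refine ⟨U, hU, haU, H, hH, hE, fun z hz => ?_⟩
    have := hne z
    apply Tendsto.limUnder_eq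
    have c1 : Tendsto H (𝓝[Sᶜ] z) (𝓝 (H z)) :=
      (hH.continuousOn.continuousAt (hU.mem_nhds hz)).mono_left nhdsWithin_le_nhds
    refine c1.congr' ?_
    filter_upwards [mem_nhdsWithin_of_mem_nhds (hU.mem_nhds hz), self_mem_nhdsWithin] with w h1 h2
    exact hE w ⟨h1, h2⟩
  refine ⟨fun z => limUnder (𝓝[Sᶜ] z) h, fun a ha => ?_, fun a ha => ?_⟩
  · obtain ⟨U, hU, haU, H, hH, -, hL⟩ := key a ha
    refine ((hH.differentiableAt (hU.mem_nhds haU)).congr_of_eventuallyEq ?_).differentiableWithinAt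
    filter_upwards [hU.mem_nhds haU] with w hw using hL w hw
  · obtain ⟨U, hU, haU, H, hH, hE, hL⟩ := key a ha.1
    show limUnder (𝓝[Sᶜ] a) h = h a
    rw [hL a haU, hE a ⟨haU, ha.2⟩]

end Pool.Agent.Lib.MP_813db1_ag.PB
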