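import Pool.Agent.Lib.MP_813db1_ag.HS.Calc
import Pool.Agent.Lib.MP_813db1_ag.PB.Ext

/-! Pull back of pluricanonical sections under a holomorphic map defined outside a thin set. -/

namespace Pool.Agent.Lib.MP_813db1_ag.PB

open Set Metric Filter MeasureTheory Topology Pool.Agent.Lib.MP_813db1_ag.HS
open scoped ContDiff Manifold

variable {ι W X : Type} [Fintype ι] [DecidableEq ι]
  [TopologicalSpace W] [ChartedSpace (ι → ℂ) W] [IsManifold 𝓘(ℂ, ι → ℂ) ω W]
  [TopologicalSpace X] [ChartedSpace (ι → ℂ) X] [IsManifold 𝓘(ℂ, ι → ℂ) ω X]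

omit [DecidableEq ι] in
theorem anaAt {f : W → X} {A : Set W} (hA : IsClosed A)
    (hf : MDifferentiableOn 𝓘(ℂ, ι → ℂ) 𝓘(ℂ, ι → ℂ) f Aᶜ)
    {e : OpenPartialHomeomorph W (ι → ℂ)} (he : e ∈ atlas (ι → ℂ) W)
    {c : OpenPartialHomeomorph X (ι → ℂ)} (hc : c ∈ atlas (ι → ℂ) X)
    {x : W} (hx : x ∈ e.source) (hxA : x ∉ A) (hfx : f x ∈ c.source) :
    AnalyticAt ℂ (c ∘ f ∘ e.symm) (e x) := by
  let B : Set W := Aᶜ ∩ f ⁻¹' c.source
  have hB : IsOpen B := hf.continuousOn.isOpen_inter_preimage hA.isOpen_compl c.open_source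
  let O : Set (ι → ℂ) := e.target ∩ e.symm ⁻¹' B
  have hO : IsOpen O := e.isOpen_inter_preimage_symm hB
  have hd : DifferentiableOn ℂ (c ∘ f ∘ e.symm) O := by
    intro z hz
    have h1 := mdifferentiableAt_atlas_symm (I := 𝓘(ℂ, ι → ℂ)) he hz.1
    have h2 := hf.mdifferentiableAt (hA.isOpen_compl.mem_nhds hz.2.1)
    have h3 := mdifferentiableAt_atlas (I := 𝓘(ℂ, ι → ℂ)) hc hz.2.2
    exact (mdifferentiableAt_iff_differentiableAt.1
      (h3.comp z (h2.comp z h1))).differentiableWithinAt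
  refine MP_caab05_ag.GB.osg _ _ _ _ hO hd _ ⟨e.map_source hx, ?_⟩
  show e.symm (e x) ∈ B
  rw [e.left_inv hx]
  exact ⟨hxA, hfx⟩

omit [DecidableEq ι] in
theorem anaTr {e e' : OpenPartialHomeomorph W (ι → ℂ)} (he : e ∈ atlas (ι → ℂ) W)
    (he' : e' ∈ atlas (ι → ℂ) W) {x : W} (hx : x ∈ e.source) (hx' : x ∈ e'.source) :
    AnalyticAt ℂ (e' ∘ e.symm) (e x) :=
  anaAt (f := id) (A := ∅) isClosed_empty mdifferentiable_id.mdifferentiableOn he he' hx
    (notMem_empty x) hx'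

theorem ana_det {τ : (ι → ℂ) → ι → ℂ} {z : ι → ℂ} (h : AnalyticAt ℂ τ z) :
    AnalyticAt ℂ (fun w => (jac τ w).det) z := by
  simp only [Matrix.det_apply']
  refine Finset.analyticAt_fun_sum _ fun σ _ => analyticAt_const.mul ?_
  exact Finset.analyticAt_fun_prod _ fun i _ => analyticAt_jac h _ _

/-- the pull back outside the thin set -/
noncomputable def raw (f : W → X) (m : ℕ)
    (t : OpenPartialHomeomorph X (ι → ℂ) → (ι → ℂ) → ℂ)
    (e : OpenPartialHomeomorph W (ι → ℂ)) (z : ι → ℂ) : ℂ :=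
  (jac (chartAt (ι → ℂ) (f (e.symm z)) ∘ f ∘ e.symm) z).det ^ m *
    t (chartAt (ι → ℂ) (f (e.symm z))) (chartAt (ι → ℂ) (f (e.symm z)) (f (e.symm z)))

theorem raw_eq {f : W → X} {A : Set W} (hA : IsClosed A)
    (hf : MDifferentiableOn 𝓘(ℂ, ι → ℂ) 𝓘(ℂ, ι → ℂ) f Aᶜ) {m : ℕ}
    {t : OpenPartialHomeomorph X (ι → ℂ) → (ι → ℂ) → ℂ} (ht : IsPluri m t)
    {e : OpenPartialHomeomorph W (ι → ℂ)} (he : e ∈ atlas (ι → ℂ) W)
    {c : OpenPartialHomeomorph X (ι → ℂ)} (hc : c ∈ atlas (ι → ℂ) X)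
    {x : W} (hx : x ∈ e.source) (hxA : x ∉ A) (hfx : f x ∈ c.source) :
    raw f m t e (e x) = (jac (c ∘ f ∘ e.symm) (e x)).det ^ m * t c (c (f x)) := by
  unfold raw
  rw [e.left_inv hx]
  set b := chartAt (ι → ℂ) (f x) with hb
  have hbm : b ∈ atlas (ι → ℂ) X := chart_mem_atlas _ _
  have hbx : f x ∈ b.source := mem_chart_source _ _
  have h1 := anaAt hA hf he hbm hx hxA hbx
  have h2 := anaTr hbm hc hbx hfx
  have hval : (b ∘ f ∘ e.symm) (e x) = b (f x) := by simp [e.left_inv hx]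
  have hev : (c ∘ f ∘ e.symm) =ᶠ[𝓝 (e x)] (c ∘ b.symm) ∘ (b ∘ f ∘ e.symm) := by
    have hc1 : ContinuousAt (f ∘ e.symm) (e x) := by
      refine ContinuousAt.comp ?_ (e.continuousAt_symm (e.map_source hx))
      rw [e.left_inv hx]
      exact hf.continuousOn.continuousAt (hA.isOpen_compl.mem_nhds hxA)
    have : ∀ᶠ w in 𝓝 (e x), (f ∘ e.symm) w ∈ b.source := by
      apply hc1.eventually (b.open_source.mem_nhds _)
      simpa [e.left_inv hx] using hbx
    filter_upwards [this] with w hw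
    simp only [Function.comp_apply] at hw ⊢
    rw [b.left_inv hw]
  rw [jac_congr hev, jac_comp (by rw [hval]; exact h2.differentiableAt) h1.differentiableAt, hval,
    Matrix.det_mul, ht.2 b hbm c hc (f x) hbx hfx]
  ring

theorem raw_trans {f : W → X} {A : Set W} (hA : IsClosed A)
    (hf : MDifferentiableOn 𝓘(ℂ, ι → ℂ) 𝓘(ℂ, ι → ℂ) f Aᶜ) (m : ℕ)
    (t : OpenPartialHomeomorph X (ι → ℂ) → (ι → ℂ) → ℂ)
    {e e' : OpenPartialHomeomorph W (ι → ℂ)} (he : e ∈ atlas (ι → ℂ) W)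
    (he' : e' ∈ atlas (ι → ℂ) W) {x : W} (hx : x ∈ e.source) (hx' : x ∈ e'.source)
    (hxA : x ∉ A) :
    raw f m t e (e x) = (jac (e' ∘ e.symm) (e x)).det ^ m * raw f m t e' (e' x) := by
  unfold raw
  rw [e.left_inv hx, e'.left_inv hx']
  set b := chartAt (ι → ℂ) (f x) with hb
  have hbm : b ∈ atlas (ι → ℂ) X := chart_mem_atlas _ _
  have hbx : f x ∈ b.source := mem_chart_source _ _
  have h1 := anaAt hA hf he' hbm hx' hxA hbx
  have h2 := anaTr he he' hx hx'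
  have hval : (e' ∘ e.symm) (e x) = e' x := by simp [e.left_inv hx]
  have hev : (b ∘ f ∘ e.symm) =ᶠ[𝓝 (e x)] (b ∘ f ∘ e'.symm) ∘ (e' ∘ e.symm) := by
    have : ∀ᶠ w in 𝓝 (e x), e.symm w ∈ e'.source := by
      apply (e.continuousAt_symm (e.map_source hx)).eventually (e'.open_source.mem_nhds _)
      simpa [e.left_inv hx] using hx'
    filter_upwards [this] with w hw
    simp only [Function.comp_apply]
    rw [e'.left_inv hw]
  rw [jac_congr hev, jac_comp (by rw [hval]; exact h1.differentiableAt) h2.differentiableAt, hval,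
    Matrix.det_mul]
  ring

omit [Fintype ι] [DecidableEq ι] [ChartedSpace (ι → ℂ) W] [IsManifold 𝓘(ℂ, ι → ℂ) ω W] in
theorem mem_diff_iff {A : Set W} {e : OpenPartialHomeomorph W (ι → ℂ)} {z : ι → ℂ} :
    z ∈ e.target \ e '' (A ∩ e.source) ↔ z ∈ e.target ∩ e.symm ⁻¹' Aᶜ := by
  constructor
  · rintro ⟨h1, h2⟩
    exact ⟨h1, fun h3 => h2 ⟨e.symm z, ⟨h3, e.map_target h1⟩, e.right_inv h1⟩⟩
  · rintro ⟨h1, h2⟩
    refine ⟨h1, ?_⟩
    rintro ⟨y, ⟨hy1, hy2⟩, rfl⟩
    apply h2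
    rw [e.left_inv hy2]
    exact hy1

theorem raw_diff {f : W → X} {A : Set W} (hA : IsClosed A)
    (hf : MDifferentiableOn 𝓘(ℂ, ι → ℂ) 𝓘(ℂ, ι → ℂ) f Aᶜ) {m : ℕ}
    {t : OpenPartialHomeomorph X (ι → ℂ) → (ι → ℂ) → ℂ} (ht : IsPluri m t)
    {e : OpenPartialHomeomorph W (ι → ℂ)} (he : e ∈ atlas (ι → ℂ) W) :
    DifferentiableOn ℂ (raw f m t e) (e.target \ e '' (A ∩ e.source)) := by
  intro z hz
  obtain ⟨hz1, hz2⟩ := mem_diff_iff.1 hz
  obtain ⟨x, hx, rfl⟩ : ∃ x ∈ e.source, e x = z := ⟨e.symm z, e.map_target hz1, e.right_inv hz1⟩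
  have hxA : x ∉ A := by simpa [e.left_inv hx] using hz2
  set b := chartAt (ι → ℂ) (f x) with hb
  have hbm : b ∈ atlas (ι → ℂ) X := chart_mem_atlas _ _
  have hbx : f x ∈ b.source := mem_chart_source _ _
  have h1 := anaAt hA hf he hbm hx hxA hbx
  have hval : (b ∘ f ∘ e.symm) (e x) = b (f x) := by simp [e.left_inv hx]
  have h2 : DifferentiableAt ℂ (t b) ((b ∘ f ∘ e.symm) (e x)) := by
    rw [hval]
    exact (ht.1 b hbm).differentiableAt (b.open_target.mem_nhds (b.map_source hbx))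
  have h3 : DifferentiableAt ℂ (fun w => (jac (b ∘ f ∘ e.symm) w).det ^ m *
      t b ((b ∘ f ∘ e.symm) w)) (e x) :=
    ((ana_det h1).differentiableAt.pow m).mul (h2.comp _ h1.differentiableAt)
  refine (h3.congr_of_eventuallyEq ?_).differentiableWithinAt
  have hB : IsOpen (Aᶜ ∩ f ⁻¹' b.source) :=
    hf.continuousOn.isOpen_inter_preimage hA.isOpen_compl b.open_source
  have hO := e.isOpen_inter_preimage_symm hB
  have hm : e x ∈ e.target ∩ e.symm ⁻¹' (Aᶜ ∩ f ⁻¹' b.source) :=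
    ⟨hz1, by simpa [e.left_inv hx] using ⟨hxA, hbx⟩⟩
  filter_upwards [hO.mem_nhds hm] with w hw
  have := raw_eq hA hf ht he hbm (e.map_target hw.1) hw.2.1 hw.2.2
  rw [e.right_inv hw.1] at this
  exact this

omit [IsManifold 𝓘(ℂ, ι → ℂ) ω X] in
/-- identity theorem for sections -/
theorem zero_of_eventually [ConnectedSpace X] {m : ℕ}
    {t : OpenPartialHomeomorph X (ι → ℂ) → (ι → ℂ) → ℂ} (ht : IsPluri m t)
    {c : OpenPartialHomeomorph X (ι → ℂ)} (hc : c ∈ atlas (ι → ℂ) X) {y : X} (hy : y ∈ c.source)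
    (h0 : ∀ᶠ w in 𝓝 (c y), t c w = 0) :
    ∀ b ∈ atlas (ι → ℂ) X, ∀ z ∈ b.target, t b z = 0 := by
  let U : Set X := {x | ∀ᶠ x' in 𝓝 x, ∀ b ∈ atlas (ι → ℂ) X, x' ∈ b.source → t b (b x') = 0}
  have hin : ∀ c ∈ atlas (ι → ℂ) X, ∀ y ∈ c.source, (∀ᶠ w in 𝓝 (c y), t c w = 0) → y ∈ U := by
    intro c hc y hy h0
    filter_upwards [(c.continuousAt hy).eventually h0, c.open_source.mem_nhds hy] with x h1 h2
    intro b hb hxb
    rw [ht.2 b hb c hc x hxb h2, h1, mul_zero]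
  have hUo : IsOpen U := isOpen_setOfPred_eventually_nhds
  have hUc : IsClosed U := by
    apply isClosed_of_closure_subset
    intro x hx
    set b := chartAt (ι → ℂ) x with hb
    have hbm : b ∈ atlas (ι → ℂ) X := chart_mem_atlas _ _
    have hbx : x ∈ b.source := mem_chart_source _ _
    obtain ⟨r, hr, hball⟩ := Metric.isOpen_iff.1 b.open_target _ (b.map_source hbx)
    have hn : b.source ∩ b ⁻¹' ball (b x) r ∈ 𝓝 x :=
      (b.isOpen_inter_preimage isOpen_ball).mem_nhds ⟨hbx, mem_ball_self hr⟩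
    obtain ⟨x', hx'1, hx'2⟩ := mem_closure_iff_nhds.1 hx _ hn
    have han := MP_caab05_ag.GB.osg _ _ _ _ isOpen_ball ((ht.1 b hbm).mono hball)
    have hev : t b =ᶠ[𝓝 (b x')] 0 := by
      have hc1 : Tendsto b.symm (𝓝 (b x')) (𝓝 x') := by
        have := b.continuousAt_symm (b.map_source hx'1.1)
        rwa [ContinuousAt, b.left_inv hx'1.1] at this
      filter_upwards [hc1.eventually hx'2, b.open_target.mem_nhds (b.map_source hx'1.1)]
        with w h1 h2
      have := h1 b hbm (b.map_target h2)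
      rwa [b.right_inv h2] at this
    have hz := han.eqOn_zero_of_preconnected_of_eventuallyEq_zero
      (convex_ball _ _).isPreconnected hx'1.2 hev
    apply hin b hbm x hbx
    filter_upwards [ball_mem_nhds _ hr] with w hw using hz hw
  have hU : U = univ := IsClopen.eq_univ ⟨hUc, hUo⟩ ⟨y, hin c hc y hy h0⟩
  intro b hb z hz
  have hx : b.symm z ∈ U := hU ▸ mem_univ _
  have := hx.self_of_nhds b hb (b.map_target hz)
  rwa [b.right_inv hz] at this

theorem pull [ConnectedSpace X] (i0 : ι) {f : W → X} {A : Set W} (hA : IsClosed A)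
    (hnull : ∀ e ∈ atlas (ι → ℂ) W, μH[2 * (Fintype.card ι : ℝ) - 2] (e '' (A ∩ e.source)) = 0)
    (hf : MDifferentiableOn 𝓘(ℂ, ι → ℂ) 𝓘(ℂ, ι → ℂ) f Aᶜ) {x₀ : W} (hx₀ : x₀ ∉ A)
    (hdet : (jac (chartAt (ι → ℂ) (f x₀) ∘ f ∘ (chartAt (ι → ℂ) x₀).symm)
      (chartAt (ι → ℂ) x₀ x₀)).det ≠ 0) {m Q : ℕ}
    {t : Fin Q → OpenPartialHomeomorph X (ι → ℂ) → (ι → ℂ) → ℂ} (ht : ∀ j, IsPluri m (t j))
    (hi : Indep t) :
    ∃ s : Fin Q → OpenPartialHomeomorph W (ι → ℂ) → (ι → ℂ) → ℂ,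
      (∀ j, IsPluri m (s j)) ∧ Indep s := by
  have hopen : ∀ e : OpenPartialHomeomorph W (ι → ℂ),
      IsOpen (e.target \ e '' (A ∩ e.source)) := by
    intro e
    have : e.target \ e '' (A ∩ e.source) = e.target ∩ e.symm ⁻¹' Aᶜ :=
      Set.ext fun z => mem_diff_iff
    rw [this]
    exact e.isOpen_inter_preimage_symm hA.isOpen_compl
  have hex : ∀ (j : Fin Q) (e : OpenPartialHomeomorph W (ι → ℂ)), e ∈ atlas (ι → ℂ) W →
      ∃ H : (ι → ℂ) → ℂ, DifferentiableOn ℂ H e.target ∧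
        ∀ z ∈ e.target \ e '' (A ∩ e.source), H z = raw f m (t j) e z :=
    fun j e he => ext i0 e.open_target (hopen e) (hnull e he) (raw_diff hA hf (ht j) he)
  choose! s hs1 hs2 using hex
  have hs3 : ∀ j, ∀ e ∈ atlas (ι → ℂ) W, ∀ x ∈ e.source, x ∉ A →
      s j e (e x) = raw f m (t j) e (e x) := fun j e he x hx hxA =>
    hs2 j e he _ (mem_diff_iff.2 ⟨e.map_source hx, by simpa [e.left_inv hx] using hxA⟩)
  refine ⟨s, fun j => ⟨hs1 j, fun e he e' he' x hx hx' => ?_⟩, fun cf hcf => ?_⟩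
  · have h2 := anaTr he he' hx hx'
    have hval : (e' ∘ e.symm) (e x) = e' x := by simp [e.left_inv hx]
    have c1 : ContinuousAt (s j e) (e x) :=
      (hs1 j e he).continuousOn.continuousAt (e.open_target.mem_nhds (e.map_source hx))
    have c2 : ContinuousAt (s j e') ((e' ∘ e.symm) (e x)) := by
      rw [hval]
      exact (hs1 j e' he').continuousOn.continuousAt (e'.open_target.mem_nhds (e'.map_source hx'))
    have c3 : ContinuousAt (fun w => (jac (e' ∘ e.symm) w).det ^ m * s j e' ((e' ∘ e.symm) w))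
        (e x) := ((ana_det h2).continuousAt.pow m).mul (c2.comp h2.continuousAt)
    have key := tendsto_nhds_unique_of_frequently_eq c1 c3 (by
      have h4 := mem_closure_iff_frequently.1 (dense_compl i0 (hnull e he) (e x))
      have h5 : e.target ∩ e.symm ⁻¹' e'.source ∈ 𝓝 (e x) :=
        (e.isOpen_inter_preimage_symm e'.open_source).mem_nhds
          ⟨e.map_source hx, by simpa [e.left_inv hx] using hx'⟩
      refine (h4.and_eventually h5).mono fun w hw => ?_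
      have hwA : e.symm w ∉ A := (mem_diff_iff.1 ⟨hw.2.1, hw.1⟩).2
      have a1 := hs3 j e he _ (e.map_target hw.2.1) hwA
      have a2 := hs3 j e' he' _ hw.2.2 hwA
      have a3 := raw_trans hA hf m (t j) he he' (e.map_target hw.2.1) hw.2.2 hwA
      rw [← a1, ← a2, e.right_inv hw.2.1] at a3
      exact a3)
    rw [key]
    beta_reduce
    rw [hval]
  · apply hi
    set e := chartAt (ι → ℂ) x₀ with he0
    set b := chartAt (ι → ℂ) (f x₀) with hb0
    have he : e ∈ atlas (ι → ℂ) W := chart_mem_atlas _ _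
    have hb : b ∈ atlas (ι → ℂ) X := chart_mem_atlas _ _
    have hx : x₀ ∈ e.source := mem_chart_source _ _
    have hbx : f x₀ ∈ b.source := mem_chart_source _ _
    have h1 := anaAt hA hf he hb hx hx₀ hbx
    have hval : (b ∘ f ∘ e.symm) (e x₀) = b (f x₀) := by simp [e.left_inv hx]
    have hT : IsPluri m (fun c z => ∑ j, cf j * t j c z) := by
      refine ⟨fun c hc => DifferentiableOn.fun_sum fun j _ => ((ht j).1 c hc).const_mul _,
        fun c hc c' hc' y hy hy' => ?_⟩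
      rw [Finset.mul_sum]
      refine Finset.sum_congr rfl fun j _ => ?_
      rw [(ht j).2 c hc c' hc' y hy hy']
      ring
    refine zero_of_eventually hT hb hbx ?_
    have hsurj : (fderiv ℂ (b ∘ f ∘ e.symm) (e x₀)).range = ⊤ := by
      rw [LinearMap.range_eq_top]
      intro y
      obtain ⟨v, hv⟩ := Matrix.mulVec_surjective_iff_isUnit.2
        ((Matrix.isUnit_iff_isUnit_det _).2 (IsUnit.mk0 _ hdet)) y
      exact ⟨v, by rw [← hv, jac_mulVec]; rfl⟩
    have hmap := h1.hasStrictFDerivAt.map_nhds_eq_of_surj hsurj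
    rw [← hval, ← hmap, eventually_map]
    have hB : IsOpen (Aᶜ ∩ f ⁻¹' b.source) :=
      hf.continuousOn.isOpen_inter_preimage hA.isOpen_compl b.open_source
    have hO := e.isOpen_inter_preimage_symm hB
    have hm : e x₀ ∈ e.target ∩ e.symm ⁻¹' (Aᶜ ∩ f ⁻¹' b.source) :=
      ⟨e.map_source hx, by simpa [e.left_inv hx] using ⟨hx₀, hbx⟩⟩
    filter_upwards [hO.mem_nhds hm, (ana_det h1).continuousAt.eventually_ne hdet] with w hw hd
    have h0 := hcf e he w hw.1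
    have h2 : ∀ j, s j e w = (jac (b ∘ f ∘ e.symm) w).det ^ m * t j b ((b ∘ f ∘ e.symm) w) := by
      intro j
      have a1 := hs3 j e he _ (e.map_target hw.1) hw.2.1
      have a2 := raw_eq hA hf (ht j) he hb (e.map_target hw.1) hw.2.1 hw.2.2
      rw [← a1, e.right_inv hw.1] at a2
      exact a2
    have h3 : (jac (b ∘ f ∘ e.symm) w).det ^ m *
        ∑ j, cf j * t j b ((b ∘ f ∘ e.symm) w) = 0 := by
      rw [Finset.mul_sum, ← h0]
      refine Finset.sum_congr rfl fun j _ => ?_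
      rw [h2 j]
      ring
    exact (mul_eq_zero.1 h3).resolve_left (pow_ne_zero _ hd)

end Pool.Agent.Lib.MP_813db1_ag.PB
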